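import Pool.Agent.Lib.MP_fd3021_gt.XBun

namespace Pool.Agent.Results.MP_fd3021_gt.AlgFibred

open Pool.Agent.Lib.MP_fd3021_gt

/-- Let `G` be residually finite and `C` a finite free complex over `ℤ G` such that `C` and its
dual, graded by `2 m + 1 - p`, resolve the trivial module in degrees `< m` (for instance the
cellular complex of the universal cover of an orientable aspherical closed manifold of dimension
`2 m + 1`), and let the two middle L2-Betti numbers of `C` vanish.  Let `φ : G → ℤ` be onto with
kernel `K` and let `B` be a finite free complex over `ℤ K` that resolves the trivial module in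
degrees `< m - 1` and whose L2-Betti numbers vanish in the degrees `m - 1, m - 3, ...`.  Then `C`
is det-L2-acyclic and `(-1) ^ m` times its L2-torsion is nonnegative. -/
theorem result (G : Type) [Group G] [Group.ResiduallyFinite G] (I : Type) [Fintype I]
    [DecidableEq I] (deg : I → ℤ) (c : Matrix I I (MonoidAlgebra ℤ G)) (m : ℕ)
    (h : ResTo m deg c) (h' : ResTo m (fun i => 2 * m + 1 - deg i) (adj c))
    (b0 : spec (lap deg c m) {0} = 0) (b1 : spec (lap deg c (m + 1)) {0} = 0)
    (φ : G →* Multiplicative ℤ) (hφ : Function.Surjective φ) (J : Type) [Fintype J]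
    [DecidableEq J] (dj : J → ℤ) (b : Matrix J J (MonoidAlgebra ℤ φ.ker))
    (hb : ResTo (m - 1) dj b) (hm : ∀ p : ℤ, p < m → Odd (m - p) → spec (lap dj b p) {0} = 0) :
    DetAcyclic deg c ∧ 0 ≤ (-1 : ℝ) ^ m * rho deg c :=
  alg_fibred φ hφ m h h' b0 b1 hb hm

/-- One more degree of exactness (bundles over the circle, kernels of type `FP_m`): the two
hypotheses on the middle L2-Betti numbers of `C` hold automatically. -/
theorem bundle (G : Type) [Group G] [Group.ResiduallyFinite G] (I : Type) [Fintype I]
    [DecidableEq I] (deg : I → ℤ) (c : Matrix I I (MonoidAlgebra ℤ G)) (m : ℕ)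
    (h : ResTo (m + 1) deg c) (h' : ResTo (m + 1) (fun i => 2 * m + 1 - deg i) (adj c))
    (φ : G →* Multiplicative ℤ) (hφ : Function.Surjective φ) (J : Type) [Fintype J]
    [DecidableEq J] (dj : J → ℤ) (b : Matrix J J (MonoidAlgebra ℤ φ.ker))
    (hb : ResTo m dj b) (hm : ∀ p : ℤ, p < m → Odd (m - p) → spec (lap dj b p) {0} = 0) :
    DetAcyclic deg c ∧ 0 ≤ (-1 : ℝ) ^ m * rho deg c :=
  alg_bundle φ hφ m h h' hb hm

end Pool.Agent.Results.MP_fd3021_gt.AlgFibred
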