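import Pool.Agent.Lib.MP_fd3021_gt.AA

namespace Pool.Agent.Results.MP_fd3021_gt.AmenableVolume

open Pool.Agent.Lib.MP_fd3021_gt

/-- Let `G` be residually finite and `C` a finite free resolution over `ℤ G` of length `2 m + 1`
whose dual is again a resolution (for instance the cellular complex of the universal cover of an
aspherical closed manifold of dimension `2 m + 1`).  If deep finite index subgroups `H` have
fundamental cycles whose image in a `G`-set with amenable stabilisers has `o ([G : H])`
nondegenerate simplices with finite stabiliser, then `C` is det-L2-acyclic and `(-1) ^ m` times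
its L2-torsion is nonnegative. -/
theorem result (G : Type) [Group G] [Group.ResiduallyFinite G] (I : Type) [Fintype I]
    [DecidableEq I] (deg : I → ℤ) (c : Matrix I I (MonoidAlgebra ℤ G)) (m : ℕ)
    (h : IsRes deg c) (h' : IsRes (fun i => 2 * m + 1 - deg i) (adj c))
    (hS : AmSmall G (2 * m + 1)) :
    DetAcyclic deg c ∧ 0 ≤ (-1 : ℝ) ^ m * rho deg c := by
  have h'' : IsRes (fun i => ((2 * m + 1 : ℕ) : ℤ) - deg i) (adj c) := by
    simpa only [Nat.cast_add, Nat.cast_mul, Nat.cast_ofNat, Nat.cast_one] using h'
  obtain ⟨a, b⟩ := am_vanishing (2 * m + 1) (by omega) h h'' hS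
  exact ⟨a, by rw [b, mul_zero]⟩

end Pool.Agent.Results.MP_fd3021_gt.AmenableVolume
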