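import Pool.Agent.Lib.MP_fd3021_gt.LC

namespace Pool.Agent.Results.MP_fd3021_gt.MiddleSign

open Pool.Agent.Lib.MP_fd3021_gt

/-- Let `G` be residually finite and `C` a finite free resolution over `ℤ G` of length `2 m + 1`
whose dual is again a resolution (for instance the cellular complex of the universal cover of an
aspherical closed manifold).  If `G` is `m`-thin and the two middle L2-Betti numbers vanish, then
`C` is det-L2-acyclic and `(-1) ^ m` times its L2-torsion is nonnegative. -/
theorem result (G : Type) [Group G] [Group.ResiduallyFinite G] (I : Type) [Fintype I]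
    [DecidableEq I] (deg : I → ℤ) (c : Matrix I I (MonoidAlgebra ℤ G)) (m : ℕ)
    (h : IsRes deg c) (h' : IsRes (fun i => 2 * m + 1 - deg i) (adj c)) (hT : Thin G m)
    (b0 : spec (lap deg c m) {0} = 0) (b1 : spec (lap deg c (m + 1)) {0} = 0) :
    DetAcyclic deg c ∧ 0 ≤ (-1 : ℝ) ^ m * rho deg c :=
  middle_sign m h h' hT b0 b1

end Pool.Agent.Results.MP_fd3021_gt.MiddleSign
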