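import Pool.Agent.Lib.MP_fd3021_gt.Rf.Main

namespace Pool.Agent.Results.MP_fd3021_gt.WallTower

open Pool.Agent.Lib.MP_fd3021_gt

/-- Let `C` be a finite free complex over `ℤ G` such that `C` and its dual, graded by `5 - p`,
resolve the trivial module in degrees `< 2` (for instance the cellular complex of the universal
cover of an orientable aspherical closed manifold of dimension five), and let the L2-Betti numbers
of `C` vanish in degrees `1, 2, 3`.  If a nontrivial subgroup of finite index has a tower of
characters dual to walls with vanishing first L2-Betti number, then `C` is det-L2-acyclic and its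
L2-torsion is nonnegative. -/
theorem result (G : Type) [Group G] (I : Type) [Fintype I] [DecidableEq I] (deg : I → ℤ)
    (c : Matrix I I (MonoidAlgebra ℤ G)) (h : ResTo 2 deg c)
    (h' : ResTo 2 (fun i => 5 - deg i) (adj c)) (b1 : spec (lap deg c 1) {0} = 0)
    (b2 : spec (lap deg c 2) {0} = 0) (b3 : spec (lap deg c 3) {0} = 0) (H : Subgroup G)
    [H.FiniteIndex] [Nontrivial H] (hT : WallTower H) :
    DetAcyclic deg c ∧ 0 ≤ rho deg c :=
  Rf.wall_main h h' b1 b2 b3 H hT

end Pool.Agent.Results.MP_fd3021_gt.WallTower
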